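import Pool.Agent.Run7.h245.DI.Iface
import Pool.Agent.Run7.h576.SR.LEVB

/-!
# Project DI (helper245), piece LEVBN (helper915): the moment argument for the NOT distinguished primes
(a copy of the end of `Run7/h576/SR/LEVB.lean`)
-/

set_option autoImplicit false
set_option linter.all false

open Polynomial IsDedekindDomain NumberField
open scoped Classical

namespace Pool.Agent.Run7.h915.DI

open Pool.Agent.Run7.h245.DI
open Pool.Agent.N783.PF
open Pool.Agent.N352.PJ (dd)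
open Run7.h576.SR.LEVB (desc_ineq choose_ineq double)

theorem levbn (hB : S_BADN) : S_LEVBN := by
  intro F _ _ g κ hg δ ε hδ hε hε1
  obtain ⟨C₀, K, hK⟩ := hB F g κ hg
  obtain ⟨m, hm⟩ := pow_unbounded_of_one_lt ((C₀ : ℝ) / δ) (by linarith : (1 : ℝ) < 1 + ε)
  refine ⟨m, ⌈(m : ℝ) / ε⌉₊ + 2 * m, K, ?_⟩
  intro W S T 𝔮 h P hW hG hTS hT
  -- the bounds for all `C`
  have hC : ∀ C : Finset ℕ, ∃ N₀ : ℕ, C ∈ T.powersetCard m → ∀ N ≥ N₀,
      {f : (𝓞 F)[X] | LBadN g N κ S C 𝔮 P f}.Finite ∧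
      2 ^ m * (∏ q ∈ S, q ^ (2 * g)) ^ Module.finrank ℚ F *
        {f : (𝓞 F)[X] | LBadN g N κ S C 𝔮 P f}.ncard ≤
      C₀ * 2 ^ (Module.finrank ℚ F * (2 * N * dd g)) := by
    intro C
    by_cases hC : C ∈ T.powersetCard m
    · rw [Finset.mem_powersetCard] at hC
      obtain ⟨N₀, hN₀⟩ := hK W S C 𝔮 h P hW hG (hC.1.trans hTS)
      refine ⟨N₀, fun _ N hN => ?_⟩
      have := hN₀ N hN
      rwa [hC.2] at this
    · exact ⟨0, fun h => absurd h hC⟩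
  choose N₀ hN₀ using hC
  refine ⟨(T.powersetCard m).sup N₀, fun N hN => ?_⟩
  set s := T.card with hs
  set t := ⌈(1 / 2 + ε) * (s : ℝ)⌉₊ with ht
  have hs1 : (m : ℝ) / ε ≤ s := by
    have h1 : ⌈(m : ℝ) / ε⌉₊ ≤ s := by omega
    exact Nat.ceil_le.1 h1
  have ht1 : (1 / 2 + ε) * (s : ℝ) ≤ t := Nat.le_ceil _
  have hmt : m ≤ t := by
    have h1 : 2 * m ≤ s := by omega
    have h2 : (2 : ℝ) * m ≤ s := by exact_mod_cast h1
    have h3 : (m : ℝ) ≤ t := by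
      have : (0 : ℝ) ≤ s := Nat.cast_nonneg _
      nlinarith
    exact_mod_cast h3
  have key := double (β := (𝓞 F)[X]) T m t (fun C => {f | LBadN g N κ S C 𝔮 P f})
    {f : (𝓞 F)[X] | ∃ Z ⊆ T, (1 / 2 + ε) * T.card ≤ Z.card ∧
      ∀ C ⊆ Z, C.card = m → LBadN g N κ S C 𝔮 P f} (by
        rintro f ⟨Z, hZ, hZc, h⟩
        exact ⟨Z, hZ, Nat.ceil_le.2 hZc, h⟩)
    (fun C hC => (hN₀ C hC N ((Finset.le_sup hC).trans hN)).1) hmt
  refine ⟨key.1, ?_⟩
  set A := {f : (𝓞 F)[X] | ∃ Z ⊆ T, (1 / 2 + ε) * T.card ≤ Z.card ∧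
      ∀ C ⊆ Z, C.card = m → LBadN g N κ S C 𝔮 P f} with hA
  set Q := (∏ q ∈ S, q ^ (2 * g)) ^ Module.finrank ℚ F with hQ
  set E := 2 ^ (Module.finrank ℚ F * (2 * N * dd g)) with hE
  -- sum of the bounds
  have h1 : 2 ^ m * Q * (t.choose m * A.ncard) ≤ s.choose m * (C₀ * E) := by
    calc 2 ^ m * Q * (t.choose m * A.ncard)
        ≤ 2 ^ m * Q * ∑ C ∈ T.powersetCard m, {f : (𝓞 F)[X] | LBadN g N κ S C 𝔮 P f}.ncard :=
          Nat.mul_le_mul_left _ key.2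
      _ = ∑ C ∈ T.powersetCard m,
          2 ^ m * Q * {f : (𝓞 F)[X] | LBadN g N κ S C 𝔮 P f}.ncard := by
          rw [Finset.mul_sum]
      _ ≤ ∑ C ∈ T.powersetCard m, C₀ * E :=
          Finset.sum_le_sum fun C hC => (hN₀ C hC N ((Finset.le_sup hC).trans hN)).2
      _ = s.choose m * (C₀ * E) := by
          rw [Finset.sum_const, Finset.card_powersetCard, smul_eq_mul]
  have h2 := choose_ineq s t m ε hε hε1 hs1 ht1
  have h3 : (2 : ℝ) ^ m * Q * (t.choose m * A.ncard) ≤ s.choose m * (C₀ * E) := by exact_mod_cast h1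
  have hEr : ((2 : ℝ) ^ (Module.finrank ℚ F * (2 * N * dd g))) = (E : ℝ) := by
    rw [hE]; push_cast; rfl
  rw [hEr]
  have hE0 : (0 : ℝ) ≤ E := Nat.cast_nonneg _
  have hct : (0 : ℝ) < t.choose m := by exact_mod_cast Nat.choose_pos hmt
  have hC₀ : (C₀ : ℝ) ≤ δ * (1 + ε) ^ m := by
    rw [div_lt_iff₀ hδ] at hm
    linarith
  have hpos : (0 : ℝ) < 2 ^ m * (t.choose m : ℝ) := by positivity
  have h4 : (2 ^ m * (t.choose m : ℝ)) * ((Q : ℝ) * (A.ncard : ℝ)) ≤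
      (2 ^ m * (t.choose m : ℝ)) * (δ * E) := by
    calc (2 ^ m * (t.choose m : ℝ)) * ((Q : ℝ) * (A.ncard : ℝ))
        = (2 : ℝ) ^ m * Q * (t.choose m * A.ncard) := by ring
      _ ≤ s.choose m * (C₀ * E) := h3
      _ ≤ s.choose m * ((δ * (1 + ε) ^ m) * E) := by
          apply mul_le_mul_of_nonneg_left _ (Nat.cast_nonneg _)
          exact mul_le_mul_of_nonneg_right hC₀ hE0
      _ = ((1 + ε) ^ m * s.choose m) * (δ * E) := by ring
      _ ≤ (2 ^ m * (t.choose m : ℝ)) * (δ * E) :=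
          mul_le_mul_of_nonneg_right h2 (by positivity)
  exact le_of_mul_le_mul_left h4 hpos

end Pool.Agent.Run7.h915.DI
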